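/-
The numbers for the optimal version (helper69). Everything is a power of
`a = n^(1/(409600 R))` times a power of 2; `2 ^ (2^20 (ρ + 1) L) ≤ a`, where `R ≤ 2 ^ ρ`.
-/
import Pool.Agent.H49.RO.Defs

set_option autoImplicit false

namespace Pool.Agent.H69.RO

open Pool.Agent.H49.RO

/-- The numbers, in terms of a number `a`. -/
noncomputable def numo (a : ℝ) (R L z n N r : ℕ) (p : ℝ) :
    Pool.Agent.H49.RO.Num where
  n := n
  w := R * (2000 * z)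
  f := 2000 * z
  s := 8 * L
  r := r
  No := N
  K1 := 2 ^ 89 * R ^ 3 * z
  KX := 140000 * R * z
  kl := 5200000 * R
  μ := 40000 * R
  D := 2 ^ 64 * R ^ 2
  t0 := 600 * z
  X := 2 ^ 84 * R ^ 3
  te := Nat.sqrt n + 1
  cm := 2000 * z + 3
  p := p
  β := a ^ 32
  l := a ^ 16
  B1 := a ^ 4
  l1 := a
  Bp := a ^ 8
  h := a ^ (512 * R)
  κ0 := 8 ^ L / ((N : ℝ) ^ z * a ^ (512 * R))
  Z1 := a ^ (1024000 * (R * z)) * (a ^ (512 * R)) ^ 2
  G1 := 2 ^ (10 * L)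
  Zg := a ^ (1024000 * (R * z)) * a ^ (512 * R)
  Gg := 2 ^ L
  ZS := a ^ (1024000 * (R * z)) * a ^ (512 * R) * 8 ^ R
  GS := 2 ^ (8 * L)
  Cb := a ^ (256000 * R)

lemma Nm_le {a : ℝ} {E : ℕ} (ha : 2 ^ E ≤ a) {x y y' : ℕ} (hx : x ≤ E) (hy : y + 1 ≤ y') :
    (2 : ℝ) ^ x * a ^ y ≤ a ^ y' := by
  have h1 : (1 : ℝ) ≤ a := (one_le_pow₀ (by norm_num)).trans ha
  have h2 : (2 : ℝ) ^ x ≤ a := (pow_le_pow_right₀ (by norm_num) hx).trans ha
  calc (2 : ℝ) ^ x * a ^ y ≤ a * a ^ y := mul_le_mul_of_nonneg_right h2 (by positivity)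
    _ = a ^ (y + 1) := by ring
    _ ≤ a ^ y' := pow_le_pow_right₀ h1 hy

lemma Nm_leR {a : ℝ} {E : ℕ} (ha : 2 ^ E ≤ a) {x y y' j : ℕ} (hx : x ≤ E * j) (hy : y + j ≤ y') :
    (2 : ℝ) ^ x * a ^ y ≤ a ^ y' := by
  have h1 : (1 : ℝ) ≤ a := (one_le_pow₀ (by norm_num)).trans ha
  have h2 : (2 : ℝ) ^ x ≤ a ^ j := by
    refine (pow_le_pow_right₀ (by norm_num) hx).trans ?_
    rw [pow_mul]
    exact pow_le_pow_left₀ (by positivity) ha j
  calc (2 : ℝ) ^ x * a ^ y ≤ a ^ j * a ^ y := mul_le_mul_of_nonneg_right h2 (by positivity)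
    _ = a ^ (y + j) := by ring
    _ ≤ a ^ y' := pow_le_pow_right₀ h1 hy

lemma Nm_nat (a : ℕ) : (a : ℝ) ≤ 2 ^ a := by
  exact_mod_cast (Nat.lt_two_pow_self (n := a)).le

/-- Multiplying out `κ0`. -/
lemma Nm_κ {A B C D : ℝ} (hD : 0 < D) (h : A * D ≤ C * B) : A ≤ C / D * B := by
  rw [div_mul_eq_mul_div, le_div_iff₀ hD]
  exact h

lemma Nm_exp {X : ℝ} {K : ℕ} (h : 2 * (K : ℝ) ≤ X) (hX : 0 < X) : (1 + 1 / X) ^ K ≤ 2 := by
  have h3 : 1 + 1 / X ≤ Real.exp (1 / X) := by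
    have := Real.add_one_le_exp (1 / X)
    linarith
  have h4 : (1 + 1 / X) ^ K ≤ Real.exp (K * (1 / X)) := by
    rw [Real.exp_nat_mul]
    exact pow_le_pow_left₀ (by positivity) h3 K
  refine h4.trans ?_
  have h5 : (K : ℝ) * (1 / X) ≤ 1 / 2 := by
    rw [mul_one_div, div_le_iff₀ hX]
    linarith
  have h6 : Real.exp (1 / 2) ≤ 2 := by
    have h7 : Real.exp (1 / 2) ^ 2 = Real.exp 1 := by
      rw [← Real.exp_nat_mul]
      norm_num
    have h8 := Real.exp_one_lt_d9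
    have h9 := Real.exp_pos (1 / 2)
    nlinarith
  exact (Real.exp_le_exp.2 h5).trans h6

/-- `p ^ L * a ^ (4096 R) ≥ 1`. -/
lemma Nm_p (a : ℝ) (R L n : ℕ) (p : ℝ) (hp0 : 0 < p)
    (hp : 1 ≤ (n : ℝ) * p ^ (100 * L)) (ha : 1 ≤ a) (han : a ^ (409600 * R) = n) :
    1 ≤ p ^ L * a ^ (4096 * R) := by
  have ha0 : 0 < a := by linarith
  by_contra hcon
  push Not at hcon
  have h1 : (p ^ L * a ^ (4096 * R)) ^ 100 < 1 :=
    pow_lt_one₀ (by positivity) hcon (by norm_num)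
  have h2 : (n : ℝ) * p ^ (100 * L) = (p ^ L * a ^ (4096 * R)) ^ 100 := by
    rw [← han]
    ring
  linarith

/-- Simple facts on the sizes. -/
lemma Nm_size (R L z : ℕ) (hR : 1 ≤ R) (hz : 1 ≤ z) (hL : 2 ^ 92 * R ^ 3 * z ≤ L) :
    2 ^ 92 * (R ^ 2 * z) ≤ L ∧ 2 ^ 92 * (R * z) ≤ L ∧ 2 ^ 92 * R ≤ L ∧ 2 ^ 92 * z ≤ L := by
  have h0 : 2 ^ 92 * (R ^ 2 * z) ≤ L := by
    refine le_trans ?_ hL
    calc 2 ^ 92 * (R ^ 2 * z) = 2 ^ 92 * (1 * R ^ 2) * z := by ring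
      _ ≤ 2 ^ 92 * (R * R ^ 2) * z := by gcongr
      _ = _ := by ring
  have h1 : 2 ^ 92 * (R * z) ≤ L := by
    refine le_trans ?_ h0
    calc 2 ^ 92 * (R * z) = 2 ^ 92 * (1 * R * z) := by ring
      _ ≤ 2 ^ 92 * (R * R * z) := by gcongr
      _ = _ := by ring
  have h2 : 2 ^ 92 * R ≤ L := le_trans (Nat.mul_le_mul_left _ (Nat.le_mul_of_pos_right _ hz)) h1
  have h3 : 2 ^ 92 * z ≤ L := le_trans (Nat.mul_le_mul_left _ (Nat.le_mul_of_pos_left _ hR)) h1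
  exact ⟨h0, h1, h2, h3⟩

lemma Nm_pow4 (L : ℕ) : (4 : ℝ) ^ L = 2 ^ (2 * L) := by
  rw [pow_mul]
  norm_num

lemma Nm_pow8 (L : ℕ) : (8 : ℝ) ^ L = 2 ^ (3 * L) := by
  rw [pow_mul]
  norm_num

lemma Nm_pow16 (L : ℕ) : (16 : ℝ) ^ L = 2 ^ (4 * L) := by
  rw [pow_mul]
  norm_num

lemma Nm_pow64 (L : ℕ) : (64 : ℝ) ^ L = 2 ^ (6 * L) := by
  rw [pow_mul]
  norm_num

theorem numo_ok (a : ℝ) (R ρ L z n N r : ℕ) (p : ℝ) (hR : 1 ≤ R) (hRρ : R ≤ 2 ^ ρ) (hz : 1 ≤ z)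
    (hL : 2 ^ 92 * R ^ 3 * z ≤ L) (hL2 : L ≤ 2 ^ 93 * R ^ 3 * z) (hr : r ≤ L)
    (hp0 : 0 < p) (hp1 : p ≤ 1) (hp : 1 ≤ (n : ℝ) * p ^ (100 * L)) (hN0 : 0 < N)
    (hN : N ≤ n * 2 ^ (2 * L)) (ha : 2 ^ (2 ^ 20 * ((ρ + 1) * L)) ≤ a)
    (han : a ^ (409600 * R) = n) :
    (numo a R L z n N r p).OK R L := by
  obtain ⟨s0, s1, s2, s3⟩ := Nm_size R L z hR hz hL
  obtain ⟨T, hT⟩ : ∃ T, T = (ρ + 1) * L := ⟨_, rfl⟩
  rw [← hT] at ha
  have hLT : L ≤ T := by rw [hT]; exact Nat.le_mul_of_pos_left _ (by omega)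
  have ha1 : 1 ≤ a := (one_le_pow₀ (by norm_num)).trans ha
  have ha0 : 0 < a := by linarith
  have hL1 : 1 ≤ L := by omega
  have hRz : 1 ≤ R * z := Nat.mul_pos hR hz
  have hn0 : (0 : ℝ) < n := by rw [← han]; positivity
  have hn0' : 0 < n := by exact_mod_cast hn0
  have hNpos : (0 : ℝ) < N := by exact_mod_cast hN0
  have hNr1 : (N : ℝ) * 2 ^ (3 * L) ≤ a ^ (460800 * R) := by
    have e2 : (N : ℝ) ≤ n * 2 ^ (2 * L) := by exact_mod_cast hN
    calc (N : ℝ) * 2 ^ (3 * L) ≤ n * 2 ^ (2 * L) * 2 ^ (3 * L) := by gcongr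
      _ = 2 ^ (5 * L) * a ^ (409600 * R) := by
        rw [← han]
        ring
      _ ≤ a ^ (460800 * R) := Nm_le ha (by omega) (by omega)
  have hNr0 : (N : ℝ) ≤ a ^ (460800 * R) :=
    le_trans (le_mul_of_one_le_right hNpos.le (one_le_pow₀ (by norm_num))) hNr1
  have hNr : (N : ℝ) ≤ a ^ (512000 * R) :=
    hNr0.trans (pow_le_pow_right₀ ha1 (by omega))
  have hNz : (N : ℝ) ^ z ≤ a ^ (512000 * (R * z)) := by
    refine (pow_le_pow_left₀ hNpos.le hNr z).trans (le_of_eq ?_)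
    ring
  have hpL := Nm_p a R L n p hp0 hp ha1 han
  have hpL0 : 0 < p ^ L := by positivity
  have hq : (1 / p) ^ L ≤ a ^ (4096 * R) := by
    rw [one_div, inv_pow, inv_le_iff_one_le_mul₀ hpL0, mul_comm]
    exact hpL
  have h4 : a ^ (393216 * R) ≤ n * p ^ (4 * L) := by
    have h2 : (n : ℝ) * p ^ (4 * L) = a ^ (393216 * R) * (p ^ L * a ^ (4096 * R)) ^ 4 := by
      rw [← han]
      ring
    rw [h2]
    exact le_mul_of_one_le_right (by positivity) (one_le_pow₀ hpL)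
  have h5 : a ^ (389120 * R) ≤ n * p ^ (5 * L) := by
    have h2 : (n : ℝ) * p ^ (5 * L) = a ^ (389120 * R) * (p ^ L * a ^ (4096 * R)) ^ 5 := by
      rw [← han]
      ring
    rw [h2]
    exact le_mul_of_one_le_right (by positivity) (one_le_pow₀ hpL)
  have hD : 0 < (N : ℝ) ^ z * a ^ (512 * R) := by positivity
  have h8L : (1 : ℝ) ≤ 8 ^ L := one_le_pow₀ (by norm_num)
  have hK : 8 * (2 ^ 89 * R ^ 3 * z) ≤ L := by
    refine le_trans (le_of_eq ?_) hL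
    ring
  have hKw : 2 * ((2 ^ 89 * R ^ 3 * z : ℕ) : ℝ) * ((R * (2000 * z) : ℕ) : ℝ) ≤ 2 ^ (2 * L) := by
    have e1 : (2 : ℝ) * ((2 ^ 89 * R ^ 3 * z : ℕ) : ℝ) ≤ L := by
      have : 2 * (2 ^ 89 * R ^ 3 * z) ≤ L := by omega
      exact_mod_cast this
    have e2 : ((R * (2000 * z) : ℕ) : ℝ) ≤ L := by
      have : R * (2000 * z) ≤ L := by
        calc R * (2000 * z) = 2000 * (R * z) := by ring
          _ ≤ 2 ^ 92 * (R * z) := Nat.mul_le_mul_right _ (by norm_num)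
          _ ≤ L := s1
      exact_mod_cast this
    have e3 := Nm_nat L
    calc 2 * ((2 ^ 89 * R ^ 3 * z : ℕ) : ℝ) * ((R * (2000 * z) : ℕ) : ℝ) ≤ L * L :=
          mul_le_mul e1 e2 (by positivity) (by positivity)
      _ ≤ 2 ^ L * 2 ^ L := mul_le_mul e3 e3 (by positivity) (by positivity)
      _ = 2 ^ (2 * L) := by ring
  have hw3 : 2000 * (R * z) ≤ L := by omega
  -- sizes of `X`, `D`, `L`
  have hXz : 256 * (z * (2 ^ 84 * R ^ 3)) ≤ L := by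
    refine le_trans (le_of_eq ?_) hL
    ring
  have hRr : (R : ℝ) ≤ 2 ^ ρ := by exact_mod_cast hRρ
  have hzr : (z : ℝ) ≤ 2 ^ z := Nm_nat z
  have hLr : (L : ℝ) ≤ 2 ^ (93 + 3 * ρ + z) := by
    have e1 : (L : ℝ) ≤ 2 ^ 93 * (R : ℝ) ^ 3 * z := by exact_mod_cast hL2
    calc (L : ℝ) ≤ 2 ^ 93 * (R : ℝ) ^ 3 * z := e1
      _ ≤ 2 ^ 93 * (2 ^ ρ) ^ 3 * 2 ^ z := by gcongr
      _ = 2 ^ (93 + 3 * ρ + z) := by ring
  have hDr : ((2 ^ 64 * R ^ 2 : ℕ) : ℝ) ≤ 2 ^ (64 + 2 * ρ) := by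
    rw [Nat.cast_mul, Nat.cast_pow, Nat.cast_pow, Nat.cast_ofNat]
    calc (2 : ℝ) ^ 64 * (R : ℝ) ^ 2 ≤ 2 ^ 64 * (2 ^ ρ) ^ 2 := by gcongr
      _ = 2 ^ (64 + 2 * ρ) := by ring
  have hXT : ∀ b c : ℕ, 256 * ((b + c * ρ + z) * (2 ^ 84 * R ^ 3)) ≤ (b + 1 + c * ρ) * L := by
    intro b c
    have e1 : b + c * ρ + z ≤ (b + 1 + c * ρ) * z := by
      have e2 : b + c * ρ ≤ (b + c * ρ) * z := Nat.le_mul_of_pos_right _ hz
      calc b + c * ρ + z ≤ (b + c * ρ) * z + z := Nat.add_le_add_right e2 _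
        _ = (b + 1 + c * ρ) * z := by ring
    calc 256 * ((b + c * ρ + z) * (2 ^ 84 * R ^ 3)) ≤
          256 * ((b + 1 + c * ρ) * z * (2 ^ 84 * R ^ 3)) := by gcongr
      _ = (b + 1 + c * ρ) * (256 * (z * (2 ^ 84 * R ^ 3))) := by ring
      _ ≤ _ := Nat.mul_le_mul_left _ hXz
  refine
    { R_pos := hR
      L_pos := hL1
      n_pos := hn0'
      f_pos := ?_
      f_lt := ?_
      p_pos := hp0
      p_le := hp1
      β_ge := ?_
      h_ge := one_le_pow₀ ha1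
      κ0_pos := ?_
      Z1_ge := ?_
      G1_ge := ?_
      w_eq := rfl
      μ_pos := ?_
      t0_pos := ?_
      kl_pos := ?_
      KX_pos := ?_
      X_ge := ?_
      LX := ?_
      D2 := ?_
      DK := ?_
      wK := ?_
      klK := ?_
      K_le := hK
      s_ge := ?_
      s_le := le_rfl
      tB := ⟨?_, ?_, ?_, ?_⟩
      tB1 := ⟨ha1, ?_, ?_, ?_⟩
      pt0 := ?_
      No_le := ?_
      Q_le := ?_
      Cb_nn := ?_
      FCb := ?_
      FM := ?_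
      FD := ?_
      FC1 := ?_
      FL := ?_
      FK := ?_
      FK2 := ?_
      FW := ?_
      FG3 := ?_
      FT := ?_
      Fcm := ?_
      FBp := ?_
      B1_ge := one_le_pow₀ ha1
      FTS := ?_
      kBp := ?_
      kβ := ?_
      FX := ?_
      FE := ?_
      FZ := ?_
      FZg := ?_
      FGg := ?_
      FU := ?_
      FC := ?_
      F8 := ?_
      F9 := le_rfl
      F9' := ?_
      F10 := ?_
      F10' := ?_
      F11 := ?_
      F12 := ?_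
      F12' := ?_ }
  · -- f_pos
    show 1 ≤ 2000 * z
    omega
  · -- f_lt
    show 2000 * z < L
    omega
  · -- β_ge
    show 16 ≤ a ^ 32
    have h := Nm_le ha (x := 4) (y := 0) (y' := 32) (by omega) (by norm_num)
    norm_num at h
    exact h
  · -- κ0_pos
    show 0 < (8 : ℝ) ^ L / _
    positivity
  · -- Z1_ge
    show 1 ≤ a ^ (1024000 * (R * z)) * (a ^ (512 * R)) ^ 2
    exact one_le_mul_of_one_le_of_one_le (one_le_pow₀ ha1) (one_le_pow₀ (one_le_pow₀ ha1))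
  · -- G1_ge
    show (8 : ℝ) ≤ 2 ^ (10 * L)
    calc (8 : ℝ) = 2 ^ 3 := by norm_num
      _ ≤ 2 ^ (10 * L) := pow_le_pow_right₀ (by norm_num) (by omega)
  · -- μ_pos
    show 1 ≤ 40000 * R
    omega
  · show 1 ≤ 600 * z
    omega
  · show 1 ≤ 5200000 * R
    omega
  · show 1 ≤ 140000 * R * z
    rw [mul_assoc]
    omega
  · -- X_ge
    show 16 ≤ 2 ^ 84 * R ^ 3
    have : 1 ≤ R ^ 3 := Nat.one_le_pow _ _ hR
    omega
  · -- LX
    show L ≤ 2 ^ 84 * R ^ 3 * (600 * z)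
    refine hL2.trans ?_
    calc 2 ^ 93 * R ^ 3 * z = 512 * (2 ^ 84 * (R ^ 3 * z)) := by ring
      _ ≤ 600 * (2 ^ 84 * (R ^ 3 * z)) := Nat.mul_le_mul_right _ (by norm_num)
      _ = _ := by ring
  · -- D2
    show 2000000 * (40000 * R + 5200000 * R) * (2 ^ 84 * R ^ 3) ≤ (2 ^ 64 * R ^ 2) ^ 2
    calc 2000000 * (40000 * R + 5200000 * R) * (2 ^ 84 * R ^ 3) =
          2000000 * 5240000 * 2 ^ 84 * R ^ 4 := by ring
      _ ≤ 2 ^ 128 * R ^ 4 := Nat.mul_le_mul_right _ (by norm_num)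
      _ = _ := by ring
  · -- DK
    show 2 ^ 64 * R ^ 2 * (40000 * R) * (600 * z) + 40000 * R * (R * (2000 * z)) ≤
      2 ^ 89 * R ^ 3 * z
    have e1 : 40000 * R * (R * (2000 * z)) ≤ 2 ^ 64 * (R ^ 3 * z) := by
      calc 40000 * R * (R * (2000 * z)) = 80000000 * (1 * R ^ 2 * z) := by ring
        _ ≤ 2 ^ 64 * (R * R ^ 2 * z) := by gcongr; norm_num
        _ = _ := by ring
    calc 2 ^ 64 * R ^ 2 * (40000 * R) * (600 * z) + 40000 * R * (R * (2000 * z)) ≤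
          2 ^ 64 * R ^ 2 * (40000 * R) * (600 * z) + 2 ^ 64 * (R ^ 3 * z) :=
            Nat.add_le_add_left e1 _
      _ = (2 ^ 64 * 24000001) * (R ^ 3 * z) := by ring
      _ ≤ 2 ^ 89 * (R ^ 3 * z) := Nat.mul_le_mul_right _ (by norm_num)
      _ = _ := by ring
  · -- wK
    show 140000 * R * z + R * (2000 * z) ≤ 2 ^ 89 * R ^ 3 * z
    calc 140000 * R * z + R * (2000 * z) = 142000 * (1 * R * z) := by ring
      _ ≤ 2 ^ 89 * (R ^ 2 * R * z) := by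
        gcongr
        · norm_num
        · exact Nat.one_le_pow _ _ hR
      _ = _ := by ring
  · -- klK
    show 5200000 * R * (R * (2000 * z)) ≤ 2 ^ 89 * R ^ 3 * z
    calc 5200000 * R * (R * (2000 * z)) = 10400000000 * (1 * R ^ 2 * z) := by ring
      _ ≤ 2 ^ 89 * (R * R ^ 2 * z) := by gcongr; norm_num
      _ = _ := by ring
  · -- s_ge
    show 4 * L + 2 * (2 ^ 89 * R ^ 3 * z) ≤ 8 * L
    omega
  · -- tB.l_ge
    exact one_le_pow₀ ha1
  · -- tB.mB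
    show 2 * ((2 ^ 89 * R ^ 3 * z : ℕ) : ℝ) * ((R * (2000 * z) : ℕ) : ℝ) * a ^ 16 ≤ (a ^ 32) ^ 2
    refine le_trans (mul_le_mul_of_nonneg_right hKw (by positivity)) ?_
    rw [← pow_mul]
    exact Nm_le ha (by omega) (by norm_num)
  · -- tB.pay
    show (a ^ (512 * R)) ^ 200 * (2 * ((2 ^ 89 * R ^ 3 * z : ℕ) : ℝ) *
      ((R * (2000 * z) : ℕ) : ℝ) * a ^ 16) ^ (40000 * R) ≤ ((a ^ 32) ^ 2) ^ (40000 * R)
    have e : (2 * ((2 ^ 89 * R ^ 3 * z : ℕ) : ℝ) * ((R * (2000 * z) : ℕ) : ℝ) * a ^ 16) ^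
        (40000 * R) ≤ (2 ^ (2 * L) * a ^ 16) ^ (40000 * R) :=
      pow_le_pow_left₀ (by positivity) (mul_le_mul_of_nonneg_right hKw (by positivity)) _
    refine le_trans (mul_le_mul_of_nonneg_left e (by positivity)) ?_
    calc (a ^ (512 * R)) ^ 200 * (2 ^ (2 * L) * a ^ 16) ^ (40000 * R) =
          2 ^ (80000 * (L * R)) * a ^ (742400 * R) := by ring
      _ ≤ a ^ (2560000 * R) := Nm_leR ha (j := R) (by
          calc 80000 * (L * R) ≤ 2 ^ 20 * (T * R) := by gcongr; norm_num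
            _ = 2 ^ 20 * T * R := by ring) (by omega)
      _ = _ := by ring
  · -- tB.t2
    show (1 / p) ^ L * (a ^ 32) ^ 2 * (a ^ (512 * R)) ^ 20000 ≤ (a ^ 16) ^ (2 * (5200000 * R))
    calc (1 / p) ^ L * (a ^ 32) ^ 2 * (a ^ (512 * R)) ^ 20000 ≤
          a ^ (4096 * R) * (a ^ 32) ^ 2 * (a ^ (512 * R)) ^ 20000 := by gcongr
      _ = a ^ (10244096 * R + 64) := by ring
      _ ≤ a ^ (166400000 * R) := pow_le_pow_right₀ ha1 (by omega)
      _ = _ := by ring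
  · -- tB1.mB
    show 2 * ((2 ^ 89 * R ^ 3 * z : ℕ) : ℝ) * ((R * (2000 * z) : ℕ) : ℝ) * a ≤ a ^ 4
    refine le_trans (mul_le_mul_of_nonneg_right hKw (by positivity)) ?_
    have h := Nm_le ha (x := 2 * L) (y := 1) (y' := 4) (by omega) (by norm_num)
    rw [pow_one] at h
    exact h
  · -- tB1.pay
    show (a ^ (512 * R)) ^ 200 * (2 * ((2 ^ 89 * R ^ 3 * z : ℕ) : ℝ) *
      ((R * (2000 * z) : ℕ) : ℝ) * a) ^ (40000 * R) ≤ (a ^ 4) ^ (40000 * R)
    have e : (2 * ((2 ^ 89 * R ^ 3 * z : ℕ) : ℝ) * ((R * (2000 * z) : ℕ) : ℝ) * a) ^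
        (40000 * R) ≤ (2 ^ (2 * L) * a) ^ (40000 * R) :=
      pow_le_pow_left₀ (by positivity) (mul_le_mul_of_nonneg_right hKw (by positivity)) _
    refine le_trans (mul_le_mul_of_nonneg_left e (by positivity)) ?_
    calc (a ^ (512 * R)) ^ 200 * (2 ^ (2 * L) * a) ^ (40000 * R) =
          2 ^ (80000 * (L * R)) * a ^ (142400 * R) := by ring
      _ ≤ a ^ (160000 * R) := Nm_leR ha (j := R) (by
          calc 80000 * (L * R) ≤ 2 ^ 20 * (T * R) := by gcongr; norm_num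
            _ = 2 ^ 20 * T * R := by ring) (by omega)
      _ = _ := by ring
  · -- tB1.t2
    show (1 / p) ^ L * a ^ 4 * (a ^ (512 * R)) ^ 20000 ≤ a ^ (2 * (5200000 * R))
    calc (1 / p) ^ L * a ^ 4 * (a ^ (512 * R)) ^ 20000 ≤
          a ^ (4096 * R) * a ^ 4 * (a ^ (512 * R)) ^ 20000 := by gcongr
      _ = a ^ (10244096 * R + 4) := by ring
      _ ≤ a ^ (10400000 * R) := pow_le_pow_right₀ ha1 (by omega)
      _ = _ := by ring
  · -- pt0
    show (1 / p) ^ (600 * z) ≤ a ^ (512 * R)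
    have h1p : 1 ≤ 1 / p := by
      rw [le_div_iff₀ hp0, one_mul]
      exact hp1
    have e1 : ((1 / p) ^ (600 * z)) ^ 8 ≤ (a ^ (512 * R)) ^ 8 := by
      calc ((1 / p) ^ (600 * z)) ^ 8 = (1 / p) ^ (4800 * z) := by rw [← pow_mul]; congr 1; ring
        _ ≤ (1 / p) ^ L := pow_le_pow_right₀ h1p (by omega)
        _ ≤ a ^ (4096 * R) := hq
        _ = _ := by ring
    exact le_of_pow_le_pow_left₀ (by norm_num) (by positivity) e1
  · -- No_le
    show (N : ℝ) ≤ (a ^ (512 * R)) ^ 900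
    refine hNr0.trans (le_of_eq ?_)
    ring
  · -- Q_le
    show (N : ℝ) * (1 / p) ^ L * 8 ^ L ≤ (a ^ (512 * R)) ^ 1000
    rw [Nm_pow8]
    calc (N : ℝ) * (1 / p) ^ L * 2 ^ (3 * L) = (N : ℝ) * 2 ^ (3 * L) * (1 / p) ^ L := by ring
      _ ≤ a ^ (460800 * R) * a ^ (4096 * R) :=
          mul_le_mul hNr1 hq (by positivity) (by positivity)
      _ = a ^ (464896 * R) := by ring
      _ ≤ a ^ (512000 * R) := pow_le_pow_right₀ ha1 (by omega)
      _ = _ := by ring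
  · -- Cb_nn
    show 0 ≤ a ^ (256000 * R)
    positivity
  · -- FCb
    show 8 * a ^ (256000 * R) * (1 / p) ^ (8 * L) * (a ^ (512 * R)) ^ 200 ≤ n
    have e1 : (1 / p) ^ (8 * L) ≤ a ^ (32768 * R) := by
      calc (1 / p) ^ (8 * L) = ((1 / p) ^ L) ^ 8 := by rw [← pow_mul]; congr 1; ring
        _ ≤ (a ^ (4096 * R)) ^ 8 := pow_le_pow_left₀ (by positivity) hq 8
        _ = _ := by ring
    calc 8 * a ^ (256000 * R) * (1 / p) ^ (8 * L) * (a ^ (512 * R)) ^ 200 ≤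
          8 * a ^ (256000 * R) * a ^ (32768 * R) * (a ^ (512 * R)) ^ 200 := by gcongr
      _ = 2 ^ 3 * a ^ (391168 * R) := by ring
      _ ≤ a ^ (409600 * R) := Nm_le ha (by omega) (by omega)
      _ = n := han
  · -- FM
    show (2 : ℝ) ^ (14 * (40000 * R) * L) ≤ a ^ (512 * R)
    have h := Nm_leR ha (x := 14 * (40000 * R) * L) (y := 0) (y' := 512 * R) (j := R) (by
      calc 14 * (40000 * R) * L = 560000 * (L * R) := by ring
        _ ≤ 2 ^ 20 * (T * R) := by gcongr; norm_num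
        _ = 2 ^ 20 * T * R := by ring) (by omega)
    rw [pow_zero, mul_one] at h
    exact h
  · -- FD
    show (2 ^ (48 * L) * ((2 ^ 64 * R ^ 2 : ℕ) : ℝ) ^ (20 * L) *
      (2 * L * ((2 ^ 64 * R ^ 2 : ℕ) : ℝ)) ^ (20 * (2 ^ 84 * R ^ 3))) ^ (2 * (40000 * R)) ≤
        a ^ (512 * R)
    have e1 : 2 * (L : ℝ) * ((2 ^ 64 * R ^ 2 : ℕ) : ℝ) ≤ 2 ^ (158 + 5 * ρ + z) := by
      calc 2 * (L : ℝ) * ((2 ^ 64 * R ^ 2 : ℕ) : ℝ) ≤
            2 * 2 ^ (93 + 3 * ρ + z) * 2 ^ (64 + 2 * ρ) := by gcongr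
        _ = 2 ^ (158 + 5 * ρ + z) := by ring
    have e2 : (2 : ℝ) ^ (48 * L) * ((2 ^ 64 * R ^ 2 : ℕ) : ℝ) ^ (20 * L) *
        (2 * L * ((2 ^ 64 * R ^ 2 : ℕ) : ℝ)) ^ (20 * (2 ^ 84 * R ^ 3)) ≤ 2 ^ (1400 * T) := by
      calc (2 : ℝ) ^ (48 * L) * ((2 ^ 64 * R ^ 2 : ℕ) : ℝ) ^ (20 * L) *
            (2 * L * ((2 ^ 64 * R ^ 2 : ℕ) : ℝ)) ^ (20 * (2 ^ 84 * R ^ 3)) ≤
            2 ^ (48 * L) * (2 ^ (64 + 2 * ρ)) ^ (20 * L) *
            (2 ^ (158 + 5 * ρ + z)) ^ (20 * (2 ^ 84 * R ^ 3)) := by gcongr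
        _ = 2 ^ (48 * L + (64 + 2 * ρ) * (20 * L) +
            (158 + 5 * ρ + z) * (20 * (2 ^ 84 * R ^ 3))) := by
            rw [← pow_mul, ← pow_mul, ← pow_add, ← pow_add]
        _ ≤ 2 ^ (1400 * T) := by
            apply pow_le_pow_right₀ (by norm_num)
            have e3 := hXT 158 5
            have e4 : (158 + 5 * ρ + z) * (20 * (2 ^ 84 * R ^ 3)) =
                20 * ((158 + 5 * ρ + z) * (2 ^ 84 * R ^ 3)) := by ring
            have e5 : (64 + 2 * ρ) * (20 * L) = 1280 * L + 40 * (ρ * L) := by ring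
            have e6 : (158 + 1 + 5 * ρ) * L = 159 * L + 5 * (ρ * L) := by ring
            have e7 : T = ρ * L + L := by rw [hT]; ring
            rw [e4, e5]
            rw [e6] at e3
            omega
    calc _ ≤ ((2 : ℝ) ^ (1400 * T)) ^ (2 * (40000 * R)) := pow_le_pow_left₀ (by positivity) e2 _
      _ = 2 ^ (112000000 * (T * R)) * a ^ 0 := by
          rw [← pow_mul, pow_zero, mul_one]
          congr 1
          ring
      _ ≤ a ^ (512 * R) := Nm_leR ha (j := 256 * R) (by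
          calc 112000000 * (T * R) ≤ 2 ^ 28 * (T * R) := Nat.mul_le_mul_right _ (by norm_num)
            _ = 2 ^ 20 * T * (256 * R) := by ring) (by omega)
  · -- FC1
    show 64 * (2 : ℝ) ^ L * 4 ^ (2 ^ 89 * R ^ 3 * z) ≤ a ^ (512 * R)
    rw [Nm_pow4]
    have h := Nm_le ha (x := 6 + L + 2 * (2 ^ 89 * R ^ 3 * z)) (y := 0) (y' := 512 * R)
      (by omega) (by omega)
    calc 64 * (2 : ℝ) ^ L * 2 ^ (2 * (2 ^ 89 * R ^ 3 * z)) =
          2 ^ (6 + L + 2 * (2 ^ 89 * R ^ 3 * z)) * a ^ 0 := by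
            rw [pow_add, pow_add]
            norm_num
      _ ≤ a ^ (512 * R) := h
  · -- FL
    show (2 : ℝ) ^ (100 * L) ≤ a ^ (512 * R)
    have h := Nm_le ha (x := 100 * L) (y := 0) (y' := 512 * R) (by omega) (by omega)
    rw [pow_zero, mul_one] at h
    exact h
  · -- FK
    show (4 * (L : ℝ)) ^ (240 * (2 ^ 84 * R ^ 3) * (5200000 * R)) ≤ a ^ (512 * R)
    have e1 : 4 * (L : ℝ) ≤ 2 ^ (95 + 3 * ρ + z) := by
      calc 4 * (L : ℝ) ≤ 4 * 2 ^ (93 + 3 * ρ + z) := by gcongr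
        _ = 2 ^ (95 + 3 * ρ + z) := by ring
    calc (4 * (L : ℝ)) ^ (240 * (2 ^ 84 * R ^ 3) * (5200000 * R)) ≤
          (2 ^ (95 + 3 * ρ + z)) ^ (240 * (2 ^ 84 * R ^ 3) * (5200000 * R)) :=
            pow_le_pow_left₀ (by positivity) e1 _
      _ = 2 ^ (4875000 * (256 * ((95 + 3 * ρ + z) * (2 ^ 84 * R ^ 3))) * R) * a ^ 0 := by
          rw [← pow_mul, pow_zero, mul_one]
          congr 1
          ring
      _ ≤ a ^ (512 * R) := Nm_leR ha (j := 512 * R) (by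
          have e3 := hXT 95 3
          have e6 : (95 + 1 + 3 * ρ) * L = 96 * L + 3 * (ρ * L) := by ring
          have e7 : T = ρ * L + L := by rw [hT]; ring
          rw [e6] at e3
          calc 4875000 * (256 * ((95 + 3 * ρ + z) * (2 ^ 84 * R ^ 3))) * R ≤
                4875000 * (96 * T) * R := by
                  apply Nat.mul_le_mul_right
                  apply Nat.mul_le_mul_left
                  omega
            _ = 468000000 * (T * R) := by ring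
            _ ≤ 2 ^ 29 * (T * R) := Nat.mul_le_mul_right _ (by norm_num)
            _ = 2 ^ 20 * T * (512 * R) := by ring) (by omega)
  · -- FK2
    show (64 : ℝ) ^ L * 2 ^ (2 * (5200000 * R) * (L + R * (2000 * z) + 4)) ≤ a ^ (512 * R)
    rw [Nm_pow64, ← pow_add]
    have h := Nm_leR ha (x := 6 * L + 2 * (5200000 * R) * (L + R * (2000 * z) + 4)) (y := 0)
      (y' := 512 * R) (j := 512 * R) (by
        have e1 : L + R * (2000 * z) + 4 ≤ 2 * L := by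
          have : R * (2000 * z) = 2000 * (R * z) := by ring
          omega
        calc 6 * L + 2 * (5200000 * R) * (L + R * (2000 * z) + 4) ≤
              6 * (L * R) + 2 * (5200000 * R) * (2 * L) := by
                gcongr
                exact Nat.le_mul_of_pos_right _ hR
          _ = 20800006 * (L * R) := by ring
          _ ≤ 2 ^ 29 * (T * R) := by gcongr; norm_num
          _ = 2 ^ 20 * T * (512 * R) := by ring) (by omega)
    rw [pow_zero, mul_one] at h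
    exact h
  · -- FW
    show (2 : ℝ) ^ (3 * (R * (2000 * z)) * (2 ^ 84 * R ^ 3)) ≤ a ^ (512 * R)
    have h := Nm_leR ha (x := 3 * (R * (2000 * z)) * (2 ^ 84 * R ^ 3)) (y := 0) (y' := 512 * R)
      (j := R) (by
        calc 3 * (R * (2000 * z)) * (2 ^ 84 * R ^ 3) = 6000 * (z * (2 ^ 84 * R ^ 3)) * R := by
              ring
          _ ≤ 2 ^ 20 * T * R := by
              apply Nat.mul_le_mul_right
              omega) (by omega)
    rw [pow_zero, mul_one] at h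
    exact h
  · -- FG3
    show (2 : ℝ) ^ (10 * L) * 64 ^ (R * (2000 * z)) ≤ (a ^ (512 * R)) ^ 3
    rw [Nm_pow64, ← pow_add, ← pow_mul]
    have h := Nm_le ha (x := 10 * L + 6 * (R * (2000 * z))) (y := 0) (y' := 512 * R * 3) (by
      have : R * (2000 * z) = 2000 * (R * z) := by ring
      omega) (by omega)
    rw [pow_zero, mul_one] at h
    exact h
  · -- FT
    show 2 ^ (40 * L) * (a ^ (1024000 * (R * z)) * (a ^ (512 * R)) ^ 2) ≤
      (a ^ (512 * R)) ^ (4 * (600 * z))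
    calc 2 ^ (40 * L) * (a ^ (1024000 * (R * z)) * (a ^ (512 * R)) ^ 2) =
          2 ^ (40 * L) * a ^ (1024000 * (R * z) + 1024 * R) := by ring
      _ ≤ a ^ (1228800 * (R * z)) := Nm_le ha (by omega) (by
          have : R ≤ R * z := Nat.le_mul_of_pos_right _ hz
          omega)
      _ = _ := by ring
  · -- Fcm
    show 8 ^ L * (a ^ (1024000 * (R * z)) * (a ^ (512 * R)) ^ 2) ≤
      (a ^ (512 * R)) ^ (2000 * z + 3)
    rw [Nm_pow8]
    calc 2 ^ (3 * L) * (a ^ (1024000 * (R * z)) * (a ^ (512 * R)) ^ 2) =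
          2 ^ (3 * L) * a ^ (1024000 * (R * z) + 1024 * R) := by ring
      _ ≤ a ^ (1024000 * (R * z) + 1536 * R) := Nm_le ha (by omega) (by omega)
      _ = _ := by ring
  · -- FBp
    show (((2000 * z + 3 : ℕ) : ℝ) + 1) * a ^ 4 ≤ a ^ 8
    have e : ((2000 * z + 3 : ℕ) : ℝ) + 1 ≤ 2 ^ (2000 * z + 4) := by
      have := Nm_nat (2000 * z + 4)
      push_cast at this ⊢
      linarith
    refine le_trans (mul_le_mul_of_nonneg_right e (by positivity)) ?_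
    exact Nm_le ha (by omega) (by norm_num)
  · -- FTS
    show 2 ^ (L + R * (2000 * z) + 5) * ((R * (2000 * z) : ℕ) : ℝ) ^ 2 * a ^ 16 * (a ^ 8) ^ 2 ≤
      (a ^ 32) ^ 2
    have e1 : ((R * (2000 * z) : ℕ) : ℝ) ≤ 2 ^ L := by
      have : R * (2000 * z) ≤ L := by
        have : R * (2000 * z) = 2000 * (R * z) := by ring
        omega
      exact le_trans (by exact_mod_cast this) (Nm_nat L)
    calc 2 ^ (L + R * (2000 * z) + 5) * ((R * (2000 * z) : ℕ) : ℝ) ^ 2 * a ^ 16 * (a ^ 8) ^ 2 ≤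
          2 ^ (L + R * (2000 * z) + 5) * (2 ^ L) ^ 2 * a ^ 16 * (a ^ 8) ^ 2 := by gcongr
      _ = 2 ^ (3 * L + 2000 * (R * z) + 5) * a ^ 32 := by ring
      _ ≤ a ^ 64 := Nm_le ha (by omega) (by norm_num)
      _ = _ := by ring
  · -- kBp
    show (1 + 1 / a ^ 8) ^ (2 ^ 89 * R ^ 3 * z) ≤ 2
    refine Nm_exp ?_ (by positivity)
    have e1 : 2 * ((2 ^ 89 * R ^ 3 * z : ℕ) : ℝ) ≤ 2 ^ L := by
      have : 2 * (2 ^ 89 * R ^ 3 * z) ≤ L := by omega
      exact le_trans (by exact_mod_cast this) (Nm_nat L)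
    refine e1.trans ?_
    have h := Nm_le ha (x := L) (y := 0) (y' := 8) (by omega) (by norm_num)
    rw [pow_zero, mul_one] at h
    exact h
  · -- kβ
    show (1 + 1 / (a ^ 32) ^ 2) ^ (2 ^ 89 * R ^ 3 * z) ≤ 2
    refine Nm_exp ?_ (by positivity)
    have e1 : 2 * ((2 ^ 89 * R ^ 3 * z : ℕ) : ℝ) ≤ 2 ^ L := by
      have : 2 * (2 ^ 89 * R ^ 3 * z) ≤ L := by omega
      exact le_trans (by exact_mod_cast this) (Nm_nat L)
    refine e1.trans ?_
    rw [← pow_mul]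
    have h := Nm_le ha (x := L) (y := 0) (y' := 32 * 2) (by omega) (by norm_num)
    rw [pow_zero, mul_one] at h
    exact h
  · -- FX
    show 2 ^ (40 * L) * (a ^ (1024000 * (R * z)) * (a ^ (512 * R)) ^ 2) ≤
      (a ^ 8) ^ (140000 * R * z)
    calc 2 ^ (40 * L) * (a ^ (1024000 * (R * z)) * (a ^ (512 * R)) ^ 2) =
          2 ^ (40 * L) * a ^ (1024000 * (R * z) + 1024 * R) := by ring
      _ ≤ a ^ (1120000 * (R * z)) := Nm_le ha (by omega) (by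
          have : R ≤ R * z := Nat.le_mul_of_pos_right _ hz
          omega)
      _ = _ := by ring
  · -- FE
    show 100 * ((R * (2000 * z) : ℕ) : ℝ) * 2 ^ (40 * L) * (a ^ 32) ^ (8 * (R * (2000 * z))) ≤
      8 ^ L / ((N : ℝ) ^ z * a ^ (512 * R)) * (a ^ 32) ^ (2 * (140000 * R * z))
    refine Nm_κ hD ?_
    have e1 : ((R * (2000 * z) : ℕ) : ℝ) ≤ 2 ^ L := by
      have : R * (2000 * z) ≤ L := by
        have : R * (2000 * z) = 2000 * (R * z) := by ring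
        omega
      exact le_trans (by exact_mod_cast this) (Nm_nat L)
    calc 100 * ((R * (2000 * z) : ℕ) : ℝ) * 2 ^ (40 * L) * (a ^ 32) ^ (8 * (R * (2000 * z))) *
          ((N : ℝ) ^ z * a ^ (512 * R)) ≤
          2 ^ 7 * 2 ^ L * 2 ^ (40 * L) * (a ^ 32) ^ (8 * (R * (2000 * z))) *
          (a ^ (512000 * (R * z)) * a ^ (512 * R)) := by
            gcongr
            norm_num
      _ = 2 ^ (41 * L + 7) * a ^ (1024000 * (R * z) + 512 * R) := by ring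
      _ ≤ a ^ (8960000 * (R * z)) := Nm_le ha (by omega) (by
          have : R ≤ R * z := Nat.le_mul_of_pos_right _ hz
          omega)
      _ = 1 * (a ^ 32) ^ (2 * (140000 * R * z)) := by ring
      _ ≤ 8 ^ L * (a ^ 32) ^ (2 * (140000 * R * z)) :=
          mul_le_mul_of_nonneg_right h8L (by positivity)
  · -- FZ
    show 2 * (a ^ 32) ^ (8 * (R * (2000 * z))) ≤
      8 ^ L / ((N : ℝ) ^ z * a ^ (512 * R)) * (a ^ (1024000 * (R * z)) * (a ^ (512 * R)) ^ 2)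
    refine Nm_κ hD ?_
    calc 2 * (a ^ 32) ^ (8 * (R * (2000 * z))) * ((N : ℝ) ^ z * a ^ (512 * R)) ≤
          2 * (a ^ 32) ^ (8 * (R * (2000 * z))) * (a ^ (512000 * (R * z)) * a ^ (512 * R)) := by
            gcongr
      _ = 2 ^ 1 * a ^ (1024000 * (R * z) + 512 * R) := by ring
      _ ≤ a ^ (1024000 * (R * z) + 1024 * R) := Nm_le ha (by omega) (by omega)
      _ = 1 * (a ^ (1024000 * (R * z)) * (a ^ (512 * R)) ^ 2) := by ring
      _ ≤ 8 ^ L * (a ^ (1024000 * (R * z)) * (a ^ (512 * R)) ^ 2) :=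
          mul_le_mul_of_nonneg_right h8L (by positivity)
  · -- FZg
    show 2 * (a ^ 32) ^ (8 * (R * (2000 * z))) * 8 ^ (R * (2000 * z)) ≤
      8 ^ L / ((N : ℝ) ^ z * a ^ (512 * R)) * (a ^ (1024000 * (R * z)) * a ^ (512 * R))
    refine Nm_κ hD ?_
    rw [Nm_pow8, Nm_pow8]
    calc 2 * (a ^ 32) ^ (8 * (R * (2000 * z))) * 2 ^ (3 * (R * (2000 * z))) *
          ((N : ℝ) ^ z * a ^ (512 * R)) ≤
          2 * (a ^ 32) ^ (8 * (R * (2000 * z))) * 2 ^ (3 * (R * (2000 * z))) *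
          (a ^ (512000 * (R * z)) * a ^ (512 * R)) := by gcongr
      _ = 2 ^ (1 + 6000 * (R * z)) * a ^ (1024000 * (R * z) + 512 * R) := by ring
      _ ≤ 2 ^ (3 * L) * a ^ (1024000 * (R * z) + 512 * R) := by
          refine mul_le_mul_of_nonneg_right ?_ (by positivity)
          exact pow_le_pow_right₀ (by norm_num) (by omega)
      _ = _ := by ring
  · -- FGg
    show (8 : ℝ) * 64 ^ (R * (2000 * z)) ≤ 2 ^ L
    rw [Nm_pow64]
    calc (8 : ℝ) * 2 ^ (6 * (R * (2000 * z))) = 2 ^ (3 + 12000 * (R * z)) := by ring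
      _ ≤ 2 ^ L := pow_le_pow_right₀ (by norm_num) (by omega)
  · -- FU
    show 8 ^ L * (a ^ 32) ^ (8 * (R * (2000 * z))) ≤
      8 ^ L / ((N : ℝ) ^ z * a ^ (512 * R)) * (a ^ (512 * R)) ^ (2000 * z + 1)
    refine Nm_κ hD ?_
    calc 8 ^ L * (a ^ 32) ^ (8 * (R * (2000 * z))) * ((N : ℝ) ^ z * a ^ (512 * R)) ≤
          8 ^ L * (a ^ 32) ^ (8 * (R * (2000 * z))) *
            (a ^ (512000 * (R * z)) * a ^ (512 * R)) := by gcongr
      _ = _ := by ring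
  · -- FC
    show (a ^ 32) ^ (8 * (R * (2000 * z))) ≤
      8 ^ L / ((N : ℝ) ^ z * a ^ (512 * R)) * (n * p ^ (4 * L)) ^ (L - 2000 * z)
    refine Nm_κ hD ?_
    refine le_trans ?_ (mul_le_mul h8L (pow_le_pow_left₀ (by positivity) h4 _)
      (by positivity) (by positivity))
    rw [one_mul, ← pow_mul (a := a) (m := 393216 * R)]
    calc (a ^ 32) ^ (8 * (R * (2000 * z))) * ((N : ℝ) ^ z * a ^ (512 * R)) ≤
          (a ^ 32) ^ (8 * (R * (2000 * z))) * (a ^ (512000 * (R * z)) * a ^ (512 * R)) := by gcongr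
      _ = a ^ (1024000 * (R * z) + 512 * R) := by ring
      _ ≤ a ^ (393216 * R * (L - 2000 * z)) := by
          apply pow_le_pow_right₀ ha1
          have e1 : 3 * z + 1 ≤ L - 2000 * z := by omega
          calc 1024000 * (R * z) + 512 * R ≤ 393216 * R * (3 * z + 1) := by
                have : 393216 * R * (3 * z + 1) = 1179648 * (R * z) + 393216 * R := by ring
                omega
            _ ≤ _ := Nat.mul_le_mul_left _ e1
  · -- F8
    show 2 * (R : ℝ) * 16 ^ L * 2 ^ (10 * L) * a ^ (512 * R) * (a ^ 32) ^ 2 ≤ n * p ^ (5 * L)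
    refine le_trans ?_ h5
    have e1 : (R : ℝ) ≤ 2 ^ L := by
      have : R ≤ L := by omega
      exact le_trans (by exact_mod_cast this) (Nm_nat L)
    rw [Nm_pow16]
    calc 2 * (R : ℝ) * 2 ^ (4 * L) * 2 ^ (10 * L) * a ^ (512 * R) * (a ^ 32) ^ 2 ≤
          2 * 2 ^ L * 2 ^ (4 * L) * 2 ^ (10 * L) * a ^ (512 * R) * (a ^ 32) ^ 2 := by gcongr
      _ = 2 ^ (15 * L + 1) * a ^ (512 * R + 64) := by ring
      _ ≤ a ^ (389120 * R) := Nm_le ha (by omega) (by omega)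
  · -- F9'
    show (2 : ℝ) ^ L * (8 * 8 ^ (2000 * z)) ^ R ≤ 2 ^ (8 * L)
    rw [Nm_pow8 (2000 * z)]
    calc (2 : ℝ) ^ L * (8 * 2 ^ (3 * (2000 * z))) ^ R =
          (2 : ℝ) ^ L * (2 ^ 3 * 2 ^ (3 * (2000 * z))) ^ R := by norm_num
      _ = 2 ^ (L + (3 + 3 * (2000 * z)) * R) := by
          rw [← pow_add, ← pow_mul, ← pow_add]
      _ ≤ 2 ^ (8 * L) := by
          apply pow_le_pow_right₀ (by norm_num)
          have : (3 + 3 * (2000 * z)) * R = 3 * R + 6000 * (R * z) := by ring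
          omega
  · -- F10
    show a ^ (1024000 * (R * z)) * a ^ (512 * R) * 8 ^ R * 2 ^ r * 8 ^ R ≤
      a ^ (1024000 * (R * z)) * (a ^ (512 * R)) ^ 2
    rw [Nm_pow8]
    calc a ^ (1024000 * (R * z)) * a ^ (512 * R) * 2 ^ (3 * R) * 2 ^ r * 2 ^ (3 * R) =
          a ^ (1024000 * (R * z)) * (2 ^ (6 * R + r) * a ^ (512 * R)) := by ring
      _ ≤ a ^ (1024000 * (R * z)) * a ^ (1024 * R) := by
          refine mul_le_mul_of_nonneg_left ?_ (by positivity)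
          exact Nm_le ha (by omega) (by omega)
      _ = _ := by ring
  · -- F10'
    show (2 : ℝ) ^ (8 * L) * 2 ^ r * (8 * 8 ^ (2000 * z)) ^ R ≤ 2 ^ (10 * L)
    rw [Nm_pow8 (2000 * z)]
    calc (2 : ℝ) ^ (8 * L) * 2 ^ r * (8 * 2 ^ (3 * (2000 * z))) ^ R =
          (2 : ℝ) ^ (8 * L) * 2 ^ r * (2 ^ 3 * 2 ^ (3 * (2000 * z))) ^ R := by norm_num
      _ = 2 ^ (8 * L + r + (3 + 3 * (2000 * z)) * R) := by
          rw [← pow_add, ← pow_add, ← pow_mul, ← pow_add]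
      _ ≤ 2 ^ (10 * L) := by
          apply pow_le_pow_right₀ (by norm_num)
          have : (3 + 3 * (2000 * z)) * R = 3 * R + 6000 * (R * z) := by ring
          omega
  · -- F11
    show ((Nat.sqrt n + 1 : ℕ) : ℝ) * 2 ^ (10 * L) * a ^ (512 * R) ≤ n * p ^ (4 * L)
    refine le_trans ?_ h4
    have e1 : ((Nat.sqrt n : ℕ) : ℝ) ≤ a ^ (204800 * R) := by
      have e2 : ((Nat.sqrt n : ℕ) : ℝ) ^ 2 ≤ (a ^ (204800 * R)) ^ 2 := by
        have e3 : Nat.sqrt n ^ 2 ≤ n := by rw [pow_two]; exact Nat.sqrt_le n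
        have e4 : ((Nat.sqrt n : ℕ) : ℝ) ^ 2 ≤ n := by exact_mod_cast e3
        refine e4.trans (le_of_eq ?_)
        rw [← han]
        ring
      exact le_of_pow_le_pow_left₀ (by norm_num) (by positivity) e2
    have e2 : ((Nat.sqrt n + 1 : ℕ) : ℝ) ≤ 2 * a ^ (204800 * R) := by
      push_cast
      have : 1 ≤ a ^ (204800 * R) := one_le_pow₀ ha1
      linarith
    calc ((Nat.sqrt n + 1 : ℕ) : ℝ) * 2 ^ (10 * L) * a ^ (512 * R) ≤
          2 * a ^ (204800 * R) * 2 ^ (10 * L) * a ^ (512 * R) := by gcongr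
      _ = 2 ^ (10 * L + 1) * a ^ (205312 * R) := by ring
      _ ≤ a ^ (393216 * R) := Nm_le ha (by omega) (by omega)
  · -- F12
    show (2 : ℝ) * 8 ^ L ≤ a ^ (1024000 * (R * z)) * a ^ (512 * R) * 8 ^ R
    rw [Nm_pow8]
    have e1 : (1 : ℝ) ≤ a ^ (1024000 * (R * z)) := one_le_pow₀ ha1
    have e2 : (1 : ℝ) ≤ 8 ^ R := one_le_pow₀ (by norm_num)
    have h := Nm_le ha (x := 3 * L + 1) (y := 0) (y' := 512 * R) (by omega) (by omega)
    calc (2 : ℝ) * 2 ^ (3 * L) = 2 ^ (3 * L + 1) * a ^ 0 := by ring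
      _ ≤ a ^ (512 * R) := h
      _ = 1 * a ^ (512 * R) * 1 := by ring
      _ ≤ _ := by gcongr
  · -- F12'
    show (2 : ℝ) * 64 ^ L ≤ 2 ^ (8 * L)
    rw [Nm_pow64]
    calc (2 : ℝ) * 2 ^ (6 * L) = 2 ^ (6 * L + 1) := by ring
      _ ≤ 2 ^ (8 * L) := pow_le_pow_right₀ (by norm_num) (by omega)

/-- The lines are few. -/
theorem numo_S (a : ℝ) (R L z n N r : ℕ) (p : ℝ) (hR : 1 ≤ R) (hz : 1 ≤ z)
    (hL : 2 ^ 92 * R ^ 3 * z ≤ L) (hN0 : 0 < N) (ha : 2 ^ (100 * L) ≤ a) :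
    2 * 8 ^ L * ((N : ℝ) ^ z * (numo a R L z n N r p).κ0) ≤ 1 := by
  obtain ⟨s0, s1, s2, s3⟩ := Nm_size R L z hR hz hL
  have ha1 : 1 ≤ a := (one_le_pow₀ (by norm_num)).trans ha
  have ha0 : 0 < a := by linarith
  have hNr : (0 : ℝ) < N := by exact_mod_cast hN0
  show 2 * 8 ^ L * ((N : ℝ) ^ z * (8 ^ L / ((N : ℝ) ^ z * a ^ (512 * R)))) ≤ 1
  have h2 : (2 : ℝ) ^ (6 * L + 1) * a ^ 0 ≤ a ^ (512 * R) :=
    Nm_le ha (by omega) (by omega)
  have e : 2 * 8 ^ L * ((N : ℝ) ^ z * (8 ^ L / ((N : ℝ) ^ z * a ^ (512 * R)))) =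
      (2 ^ (6 * L + 1) * a ^ 0) / a ^ (512 * R) := by
    rw [Nm_pow8]
    field_simp
    ring
  rw [e, div_le_one (by positivity)]
  exact h2

end Pool.Agent.H69.RO
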